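import Pool.Agent.Helper33.HM.RO
import Pool.Agent.Helper29.BA.ACDef
import Mathlib.SetTheory.Ordinal.Univ
import Mathlib.SetTheory.Cardinal.Arithmetic

/-!
# Project BA, module R9b: names of sets over a ccc poset
-/

set_option autoImplicit false

namespace Pool.Agent.Helper94.BA

open Pool.Agent.Helper33.HM Cardinal

universe u

/-- Every regular open set is generated by a countable set. -/
theorem h3_exists_gen {P : Type u} [Preorder P] (h₀ : AC P) (U : RO P) :
    ∃ A : Set P, A.Countable ∧ RO.gen A = U := by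
  classical
  obtain ⟨A, hA⟩ : ∃ A : Set P, Maximal (fun A : Set P =>
      A ⊆ U.carrier ∧ ∀ p ∈ A, ∀ q ∈ A, p ≠ q → ¬ ∃ r : P, r ≤ p ∧ r ≤ q) A := by
    refine zorn_subset {A : Set P |
      A ⊆ U.carrier ∧ ∀ p ∈ A, ∀ q ∈ A, p ≠ q → ¬ ∃ r : P, r ≤ p ∧ r ≤ q} ?_
    intro c hc hchain
    refine ⟨⋃₀ c, ⟨Set.sUnion_subset fun s hs => (hc hs).1, ?_⟩, fun s hs =>
      Set.subset_sUnion_of_mem hs⟩
    rintro p ⟨s, hs, hps⟩ q ⟨t, ht, hqt⟩ hpq
    rcases hchain.total hs ht with h | h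
    · exact (hc ht).2 p (h hps) q hqt hpq
    · exact (hc hs).2 p hps q (h hqt) hpq
  refine ⟨A, h₀ A hA.prop.2, RO.ext' fun p => ⟨fun hp => ?_, fun hp => ?_⟩⟩
  · refine RO.mem_reg fun q hq => ?_
    obtain ⟨r, hr, a, ha, hra⟩ := hp q hq
    exact ⟨r, hr, RO.mem_lower hra (hA.prop.1 ha)⟩
  · intro q hq
    have hqU : q ∈ U := RO.mem_lower hq hp
    by_contra hcon
    push Not at hcon
    have hins : insert q A ⊆ U.carrier ∧ ∀ p ∈ insert q A, ∀ q' ∈ insert q A, p ≠ q' →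
        ¬ ∃ r : P, r ≤ p ∧ r ≤ q' := by
      refine ⟨Set.insert_subset hqU hA.prop.1, ?_⟩
      rintro x (rfl | hx) y (rfl | hy) hxy ⟨r, hrx, hry⟩
      · exact hxy rfl
      · exact hcon r hrx y hy hry
      · exact hcon r hry x hx hrx
      · exact hA.prop.2 x hx y hy hxy ⟨r, hrx, hry⟩
    have hmem : q ∈ A := hA.le_of_ge hins (Set.subset_insert q A) (Set.mem_insert q A)
    exact hcon q le_rfl q hmem le_rfl

/-- The cardinality of the class of small ordinals is not increased by countable powers. -/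
theorem h3_univ_pow : #Ordinal.{0} ^ (ℵ₀ : Cardinal.{1}) ≤ #Ordinal.{0} := by
  have h1 : #Ordinal.{0} ^ (ℵ₀ : Cardinal.{1}) = #(ULift.{1} ℕ → Ordinal.{0}) := by
    simp
  rw [h1]
  -- every sequence is bounded
  have h2 : #(ULift.{1} ℕ → Ordinal.{0}) ≤
      #(Σ β : Ordinal.{0}, ULift.{1} ℕ → Set.Iio β) := by
    refine mk_le_of_surjective (f := fun x n => (x.2 n : Ordinal.{0})) fun g => ?_
    have hb : BddAbove (Set.range fun n : ℕ => g ⟨n⟩) := Ordinal.bddAbove_of_small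
    refine ⟨⟨Order.succ (⨆ n : ℕ, g ⟨n⟩), fun n => ⟨g n, ?_⟩⟩, rfl⟩
    exact Order.lt_succ_iff.2 (le_ciSup hb n.down)
  refine h2.trans ?_
  rw [mk_sigma]
  refine (Cardinal.sum_le_mk_mul_iSup _).trans ?_
  have hinf : ℵ₀ ≤ #Ordinal.{0} := by
    rw [mk_ordinal]
    exact aleph0_lt_univ.le
  refine (Cardinal.mul_le_max_of_aleph0_le_left hinf).trans (max_le le_rfl ?_)
  refine ciSup_le' fun β => ?_
  have hs : Small.{0} (ULift.{1} ℕ → Set.Iio β) := by
    have : Small.{0} (ULift.{1} ℕ) := inferInstance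
    have : Small.{0} (Set.Iio β) := inferInstance
    infer_instance
  have := small_iff_lift_mk_lt_univ.1 hs
  rw [mk_ordinal]
  simpa using this.le

/-- A ccc poset of size at most the class of small ordinals has as many names of sets. -/
theorem exists_enum {P : Type 1} [Preorder P] (h₀ : AC P) (hP : #P ≤ #Ordinal.{0}) :
    ∃ e : Ordinal.{0} → (ℕ → RO P), Function.Surjective e := by
  have hinf : ℵ₀ ≤ #Ordinal.{0} := by
    rw [mk_ordinal]
    exact aleph0_lt_univ.le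
  have h1 : #(RO P) ≤ #Ordinal.{0} := by
    calc #(RO P) ≤ #{ A : Set P // #A ≤ ℵ₀ } := by
          refine mk_le_of_surjective (f := fun A => RO.gen A.1) fun U => ?_
          obtain ⟨A, hA, hU⟩ := h3_exists_gen h₀ U
          exact ⟨⟨A, le_aleph0_iff_set_countable.2 hA⟩, hU⟩
      _ ≤ max #P ℵ₀ ^ (ℵ₀ : Cardinal.{1}) := mk_bounded_set_le P ℵ₀
      _ ≤ #Ordinal.{0} ^ (ℵ₀ : Cardinal.{1}) :=
          Cardinal.power_le_power_right (max_le hP hinf)
      _ ≤ #Ordinal.{0} := h3_univ_pow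
  have h2 : #(ℕ → RO P) ≤ #Ordinal.{0} := by
    have : #(ℕ → RO P) = #(RO P) ^ (ℵ₀ : Cardinal.{1}) := by simp
    rw [this]
    exact (Cardinal.power_le_power_right h1).trans h3_univ_pow
  obtain ⟨f⟩ := h2
  have : Nonempty (ℕ → RO P) := ⟨fun _ => ⊤⟩
  exact ⟨Function.invFun f, Function.invFun_surjective f.injective⟩

end Pool.Agent.Helper94.BA
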