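import Pool.Agent.Helper84.BA.Defs1
import Pool.Agent.Helper9.BA.CalcC2

/-!
# Project BA, module B14: the witness lemma, type 2
-/

set_option autoImplicit false

namespace Pool.Agent.Helper94.BA

open Pool.Agent.Helper33.HM

universe u

section

variable {B : Type u} [CompleteBooleanAlgebra B]
variable {K K' : Set (Finset ℕ → B)} {A : (ℕ → B) → B}

theorem h3_PC_sub (x y : ℕ → B) (s : Finset ℕ) : (⨅ n, x n ⇨ y n) ⊓ PC x s ≤ PC y s := by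
  refine le_iInf fun n => le_iInf fun hn => ?_
  have h1 : PC x s ≤ x n := iInf₂_le n hn
  have h2 : (⨅ n, x n ⇨ y n) ≤ x n ⇨ y n := iInf_le _ n
  exact (inf_le_inf h2 h1).trans himp_inf_le

theorem h3_memC_sub (x y : ℕ → B) (C : Finset ℕ → B) :
    (⨅ n, x n ⇨ y n) ⊓ memC y C ≤ memC x C := by
  refine le_iInf fun s => ?_
  rw [le_himp_iff]
  have h1 : memC y C ≤ PC y s ⇨ C s := iInf_le _ s
  calc (⨅ n, x n ⇨ y n) ⊓ memC y C ⊓ PC x s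
      ≤ (PC y s ⇨ C s) ⊓ PC y s := by
        refine le_inf (inf_le_left.trans (inf_le_right.trans h1)) ?_
        exact (inf_le_inf_right _ inf_le_left).trans (h3_PC_sub x y s)
    _ ≤ C s := himp_inf_le

theorem h3_memC_anti {x y : ℕ → B} (h : x ≤ y) (C : Finset ℕ → B) : memC y C ≤ memC x C := by
  refine le_trans ?_ (h3_memC_sub x y C)
  refine le_inf (le_iInf fun n => ?_) le_rfl
  rw [himp_eq_top_iff.2 (h n)]
  exact le_top

theorem h3_memC_mono {C D : Finset ℕ → B} (h : C ≤ D) (x : ℕ → B) : memC x C ≤ memC x D :=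
  iInf_mono fun s => himp_le_himp_left (h s)

theorem h3_memC_PC (x y : ℕ → B) : (⨅ n, x n ⇨ y n) ≤ memC x (PC y) := by
  refine le_iInf fun s => ?_
  rw [le_himp_iff]
  exact h3_PC_sub x y s

/-- The value of: `x` belongs to the ideal coded by `K`. -/
def h3_Kin (K : Set (Finset ℕ → B)) (x : ℕ → B) : B :=
  ⨆ C : Finset ℕ → B, ⨆ _ : C ∈ K, memC x C

theorem h3_le_Kin {C : Finset ℕ → B} (hC : C ∈ K) (x : ℕ → B) : memC x C ≤ h3_Kin K x :=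
  le_iSup₂_of_le (f := fun C (_ : C ∈ K) => memC x C) C hC le_rfl

theorem h3_Kin_sub (K : Set (Finset ℕ → B)) (x y : ℕ → B) :
    (⨅ n, x n ⇨ y n) ⊓ h3_Kin K y ≤ h3_Kin K x := by
  rw [h3_Kin, inf_iSup_eq]
  refine iSup_le fun C => ?_
  rw [inf_iSup_eq]
  exact iSup_le fun hC => (h3_memC_sub x y C).trans (h3_le_Kin hC x)

theorem h3_Kin_anti {x y : ℕ → B} (h : x ≤ y) : h3_Kin K y ≤ h3_Kin K x := by
  refine le_trans ?_ (h3_Kin_sub K x y)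
  refine le_inf (le_iInf fun n => ?_) le_rfl
  rw [himp_eq_top_iff.2 (h n)]
  exact le_top

theorem h3_Kin_fin (hK : SmallIdeal K) (x : ℕ → B) : finV x ≤ h3_Kin K x := by
  unfold finV
  refine iSup_le fun m => ?_
  obtain ⟨C, hC, hmC⟩ := hK.fin m
  refine le_trans ?_ ((h3_memC_mono hmC x).trans (h3_le_Kin hC x))
  refine le_trans ?_ (h3_memC_PC _ _)
  refine le_iInf fun n => ?_
  by_cases hn : n < m
  · simp [finN, hn]
  · simp only [finN, hn, if_false, himp_bot]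
    exact iInf₂_le n (not_lt.1 hn)

theorem h3_Kin_sup (hK : SmallIdeal K) (x y : ℕ → B) :
    h3_Kin K x ⊓ h3_Kin K y ≤ h3_Kin K (x ⊔ y) := by
  rw [h3_Kin, iSup_inf_eq]
  refine iSup_le fun C => ?_
  rw [iSup_inf_eq]
  refine iSup_le fun hC => ?_
  rw [h3_Kin, inf_iSup_eq]
  refine iSup_le fun D => ?_
  rw [inf_iSup_eq]
  refine iSup_le fun hD => ?_
  obtain ⟨E, hE, hCE⟩ := hK.dir C hC D hD
  exact (memC_joinC (hK.cf C hC) (hK.cf D hD) x y).trans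
    ((h3_memC_mono hCE _).trans (h3_le_Kin hE _))

theorem h3_Kin_ref (hr : Ref K K') (x : ℕ → B) : h3_Kin K x ≤ h3_Kin K' x := by
  rw [h3_Kin]
  refine iSup_le fun C => iSup_le fun hC => ?_
  obtain ⟨D, hD, hCD⟩ := hr C hC
  exact (h3_memC_mono hCD x).trans (h3_le_Kin hD x)

/-- On the complement of `E`, the members with large intersections are the `a i`. -/
theorem h3_cover {S : (ℕ → B) → B} {a : ℕ → ℕ → B} {e : ℕ → B} (hE : Exhaust S a e)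
    (b : ℕ → B) (j : ℕ) : (e j)ᶜ ⊓ S b ≤ ⨆ i : ℕ, e i ⊓ eqV b (a i) := by
  have hanti : Antitone e := antitone_nat_of_succ_le hE.anti
  induction j with
  | zero =>
    have h := hE.cov 0 b
    simp only [Nat.not_lt_zero, iSup_false, iSup_bot, sup_bot_eq] at h
    have : (e 0)ᶜ ⊓ S b ≤ ⊥ := by
      calc (e 0)ᶜ ⊓ S b ≤ (e 0)ᶜ ⊓ e 0 := inf_le_inf_left _ h
        _ = ⊥ := compl_inf_eq_bot
    exact this.trans bot_le
  | succ j ih =>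
    have hsplit : (e (j + 1))ᶜ ⊓ S b ≤ ((e j)ᶜ ⊓ S b) ⊔ (e j ⊓ ((e (j + 1))ᶜ ⊓ S b)) := by
      calc (e (j + 1))ᶜ ⊓ S b = ((e j)ᶜ ⊔ e j) ⊓ ((e (j + 1))ᶜ ⊓ S b) := by
            rw [compl_sup_eq_top, top_inf_eq]
        _ = ((e j)ᶜ ⊓ ((e (j + 1))ᶜ ⊓ S b)) ⊔ (e j ⊓ ((e (j + 1))ᶜ ⊓ S b)) := inf_sup_right _ _ _
        _ ≤ _ := sup_le_sup (inf_le_inf_left _ inf_le_right) le_rfl
    refine hsplit.trans (sup_le ih ?_)
    have h1 : (e (j + 1))ᶜ ⊓ S b ≤ ⨆ i : ℕ, ⨆ _ : i < j + 1, eqV b (a i) := by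
      have h := hE.cov (j + 1) b
      calc (e (j + 1))ᶜ ⊓ S b
          ≤ (e (j + 1))ᶜ ⊓ (e (j + 1) ⊔ ⨆ i : ℕ, ⨆ _ : i < j + 1, eqV b (a i)) :=
            inf_le_inf_left _ h
        _ = (e (j + 1))ᶜ ⊓ ⨆ i : ℕ, ⨆ _ : i < j + 1, eqV b (a i) := by
            rw [inf_sup_left, compl_inf_eq_bot, bot_sup_eq]
        _ ≤ _ := inf_le_right
    refine (inf_le_inf_left _ h1).trans ?_
    rw [inf_iSup_eq]
    refine iSup_le fun i => ?_
    rw [inf_iSup_eq]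
    refine iSup_le fun hi => ?_
    exact (inf_le_inf_right _ (hanti (Nat.lt_succ_iff.1 hi))).trans
      (le_iSup (fun i => e i ⊓ eqV b (a i)) i)

theorem h3_cover' {S : (ℕ → B) → B} {a : ℕ → ℕ → B} {e : ℕ → B} (hE : Exhaust S a e)
    (b : ℕ → B) : (⨅ i, e i)ᶜ ⊓ S b ≤ ⨆ i : ℕ, e i ⊓ eqV b (a i) := by
  rw [compl_iInf, iSup_inf_eq]
  exact iSup_le fun j => h3_cover hE b j

/-- Claim (ii): a member with large intersections has, off `E`, a small intersection with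
`Z`. -/
theorem h3_many (hK' : SmallIdeal K') {Y : ℕ → ℕ → B} {S : (ℕ → B) → B}
    {a : ℕ → ℕ → B} {e : ℕ → B} (hE : Exhaust S a e) (Z : ℕ → B)
    (h1 : ∀ n, finV (Z ⊓ (Y n ⊓ witY a e)ᶜ) = ⊤) (b : ℕ → B) :
    (⨅ i, e i)ᶜ ⊓ S b ≤ h3_Kin K' (Z ⊓ b) := by
  have h := h3_cover' hE b
  have h' : (⨅ i, e i)ᶜ ⊓ S b ≤ (⨅ i, e i)ᶜ ⊓ ⨆ i : ℕ, e i ⊓ eqV b (a i) :=
    le_inf inf_le_left h
  refine h'.trans ?_
  rw [inf_iSup_eq]
  refine iSup_le fun i => ?_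
  have hfin : h3_Kin K' (Z ⊓ (Y 0 ⊓ witY a e)ᶜ) = ⊤ :=
    top_le_iff.1 ((h1 0).symm.le.trans (h3_Kin_fin hK' _))
  refine le_trans ?_ (h3_Kin_sub K' (Z ⊓ b) (Z ⊓ (Y 0 ⊓ witY a e)ᶜ))
  rw [hfin, inf_top_eq]
  refine le_iInf fun n => ?_
  rw [le_himp_iff]
  simp only [Pi.inf_apply, Pi.compl_apply]
  refine le_inf (inf_le_right.trans inf_le_left) ?_
  rw [compl_inf]
  refine le_trans ?_ le_sup_right
  simp only [witY, compl_sup, compl_compl]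
  refine le_inf (inf_le_left.trans inf_le_left) ?_
  refine le_trans ?_ (le_iSup (fun j => e j ⊓ a j n) i)
  refine le_inf (inf_le_left.trans (inf_le_right.trans inf_le_left)) ?_
  have h2 : eqV b (a i) ⊓ b n ≤ a i n := by
    have : eqV b (a i) ≤ iffV (b n) (a i n) := iInf_le _ n
    calc eqV b (a i) ⊓ b n ≤ iffV (b n) (a i n) ⊓ b n := inf_le_inf_right _ this
      _ ≤ a i n := by
        unfold iffV
        calc _ ≤ (b n ⇨ a i n) ⊓ b n := by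
              refine inf_le_inf_right _ ?_
              exact inf_le_left
          _ ≤ a i n := himp_inf_le
  refine le_trans ?_ h2
  exact le_inf (inf_le_left.trans (inf_le_right.trans inf_le_right))
    (inf_le_right.trans inf_le_right)

/-- Claim (i): every member of `A` has, off `E`, a small intersection with `Z`. -/
theorem h3_all (hK' : SmallIdeal K') (hr : Ref K K') {Y : ℕ → ℕ → B}
    {a : ℕ → ℕ → B} {e : ℕ → B} (hE : Exhaust (manyV K A Y) a e) (Z : ℕ → B)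
    (h1 : ∀ n, finV (Z ⊓ (Y n ⊓ witY a e)ᶜ) = ⊤) (b : ℕ → B) :
    (⨅ i, e i)ᶜ ⊓ A b ≤ h3_Kin K' (Z ⊓ b) := by
  have hsplit : (⨅ i, e i)ᶜ ⊓ A b ≤ ((⨅ i, e i)ᶜ ⊓ manyV K A Y b) ⊔
      ⨆ n : ℕ, h3_Kin K (b ⊓ Y n) := by
    have hc : (⨅ n : ℕ, ⨅ C : Finset ℕ → B, ⨅ _ : C ∈ K, (memC (b ⊓ Y n) C)ᶜ)ᶜ =
        ⨆ n : ℕ, h3_Kin K (b ⊓ Y n) := by
      simp only [compl_iInf, compl_compl, h3_Kin]
    rw [← hc, manyV, ← inf_assoc, sup_inf_right]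
    refine le_inf ?_ ?_
    · exact le_sup_left
    · rw [sup_compl_eq_top]; exact le_top
  refine hsplit.trans (sup_le (h3_many hK' hE Z h1 b) (iSup_le fun n => ?_))
  have hfin : h3_Kin K' (Z ⊓ (Y n ⊓ witY a e)ᶜ) = ⊤ :=
    top_le_iff.1 ((h1 n).symm.le.trans (h3_Kin_fin hK' _))
  calc h3_Kin K (b ⊓ Y n) ≤ h3_Kin K' (b ⊓ Y n) := h3_Kin_ref hr _
    _ = h3_Kin K' (b ⊓ Y n) ⊓ h3_Kin K' (Z ⊓ (Y n ⊓ witY a e)ᶜ) := by rw [hfin, inf_top_eq]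
    _ ≤ h3_Kin K' ((b ⊓ Y n) ⊔ (Z ⊓ (Y n ⊓ witY a e)ᶜ)) := h3_Kin_sup hK' _ _
    _ ≤ h3_Kin K' (Z ⊓ b) := by
        refine h3_Kin_anti ?_
        rw [compl_inf, inf_sup_left]
        have : Z ⊓ b ≤ (b ⊓ Y n) ⊔ (Z ⊓ (Y n)ᶜ) := by
          calc Z ⊓ b = (Z ⊓ b) ⊓ (Y n ⊔ (Y n)ᶜ) := by rw [sup_compl_eq_top, inf_top_eq]
            _ = (Z ⊓ b ⊓ Y n) ⊔ (Z ⊓ b ⊓ (Y n)ᶜ) := inf_sup_left _ _ _
            _ ≤ _ := sup_le_sup (inf_le_inf_right _ inf_le_right)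
                (inf_le_inf_right _ inf_le_left)
        refine this.trans (sup_le_sup_left le_sup_left _)

theorem h3_list (hK' : SmallIdeal K') (hr : Ref K K') {Y : ℕ → ℕ → B}
    {a : ℕ → ℕ → B} {e : ℕ → B} (hE : Exhaust (manyV K A Y) a e) (Z : ℕ → B)
    (h1 : ∀ n, finV (Z ⊓ (Y n ⊓ witY a e)ᶜ) = ⊤) (l : List (ℕ → B)) (x : ℕ → B)
    (hx : x ≤ Z) : (⨅ i, e i)ᶜ ⊓ allV A l ⊓ h3_Kin K' (x ⊓ (usup l)ᶜ) ≤ h3_Kin K' x := by
  induction l generalizing x with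
  | nil =>
    simp only [usup, List.foldr_nil, compl_bot, inf_top_eq]
    exact inf_le_right
  | cons b l ih =>
    have hu : usup (b :: l) = b ⊔ usup l := rfl
    have ha : allV A (b :: l) = A b ⊓ allV A l := rfl
    rw [hu, ha, compl_sup, ← inf_assoc x]
    have h2 := ih (x ⊓ bᶜ) (inf_le_left.trans hx)
    have h3 := h3_all hK' hr hE Z h1 b
    calc (⨅ i, e i)ᶜ ⊓ (A b ⊓ allV A l) ⊓ h3_Kin K' (x ⊓ bᶜ ⊓ (usup l)ᶜ)
        ≤ ((⨅ i, e i)ᶜ ⊓ A b) ⊓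
          ((⨅ i, e i)ᶜ ⊓ allV A l ⊓ h3_Kin K' (x ⊓ bᶜ ⊓ (usup l)ᶜ)) := by
          refine le_inf (inf_le_left.trans (inf_le_inf_left _ inf_le_left)) ?_
          exact inf_le_inf_right _ (inf_le_inf_left _ inf_le_right)
      _ ≤ h3_Kin K' (Z ⊓ b) ⊓ h3_Kin K' (x ⊓ bᶜ) := inf_le_inf h3 h2
      _ ≤ h3_Kin K' ((Z ⊓ b) ⊔ (x ⊓ bᶜ)) := h3_Kin_sup hK' _ _
      _ ≤ h3_Kin K' x := by
        refine h3_Kin_anti ?_
        calc x = x ⊓ (b ⊔ bᶜ) := by rw [sup_compl_eq_top, inf_top_eq]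
          _ = (x ⊓ b) ⊔ (x ⊓ bᶜ) := inf_sup_left _ _ _
          _ ≤ _ := sup_le_sup_right (inf_le_inf_right _ hx) _

set_option linter.unusedVariables false in
/-- N6d. (Type 2) -/
theorem witness_fin (hK' : SmallIdeal K') (hr : Ref K K') (hA : IsAD A) {Y : ℕ → ℕ → B}
    {a : ℕ → ℕ → B} {e : ℕ → B} (hE : Exhaust (manyV K A Y) a e) (Z : ℕ → B)
    (h1 : ∀ n, finV (Z ⊓ (Y n ⊓ witY a e)ᶜ) = ⊤)
    (h2 : ∀ j, ∀ C ∈ K', memC (Z ⊓ witA a e j) C = ⊥) : (⨅ i, e i)ᶜ ≤ JP K' A Z := by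
  have hZ : h3_Kin K' Z = ⊥ := by
    rw [h3_Kin]
    refine le_bot_iff.1 (iSup_le fun C => iSup_le fun hC => ?_)
    exact (h3_memC_anti (inf_le_left : Z ⊓ witA a e 0 ≤ Z) C).trans (h2 0 C hC).le
  unfold JP
  refine le_iInf fun C => le_iInf fun hC => le_iInf fun l => ?_
  rw [le_himp_iff, le_compl_iff_disjoint_right, disjoint_iff_inf_le]
  refine (inf_le_inf_left _ (h3_le_Kin hC _)).trans ?_
  exact (h3_list hK' hr hE Z h1 l Z le_rfl).trans hZ.le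

end

end Pool.Agent.Helper94.BA
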